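import Pool.Agent.Lib_helper74.KP.B3b
import Pool.Agent.Lib_helper66.KP.A

/-!
# (G4): detection of homology at a nondegenerate critical point, final form
-/

open scoped Topology
open Metric Set

noncomputable section

namespace Pool.Agent.TP

/-- (G4) detection of homology at a nondegenerate critical point of index `k`. -/
theorem tight_T1 {n k : ℕ} (hk : 1 ≤ k) {M E : Type} [TopologicalSpace M] [CompactSpace M]
    [T2Space M] [NormedAddCommGroup E] [NormedSpace ℝ E]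
    (f : M → E) (hc : Continuous f) (ht : IsTight f)
    (ξ : E →L[ℝ] ℝ) (φ : EuclideanSpace ℝ (Fin n) → M) (R : ℝ) (hR : 0 < R)
    (hφ : ContinuousOn φ (closedBall 0 R)) (hinj : InjOn φ (closedBall 0 R))
    (hopen : ∀ r, 0 < r → r ≤ R → IsOpen (φ '' ball 0 r))
    (π : EuclideanSpace ℝ (Fin n) →L[ℝ] EuclideanSpace ℝ (Fin k))
    (ψ : EuclideanSpace ℝ (Fin k) →L[ℝ] EuclideanSpace ℝ (Fin n)) (hπψ : ∀ x, π (ψ x) = x)
    (hneg : ∀ x, x ≠ 0 → ‖ψ x‖ ≤ R → ξ (f (φ (ψ x))) < ξ (f (φ 0)))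
    (hpos : ∀ z, z ≠ 0 → ‖z‖ ≤ R → π z = 0 → ξ (f (φ 0)) < ξ (f (φ z))) :
    ¬ Subsingleton ((HZ2 k).obj (TopCat.of M)) :=
  tight_T1_of (fun A n h => KP.injIn_of_injective A n h)
    (fun k h => KP.vanishesIn_of_rank k (rank_zero_iff.2 h))
    hk f hc ht ξ φ R hR hφ hinj hopen π ψ hπψ hneg hpos

end Pool.Agent.TP
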