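import Pool.Agent.Lib_helper69.KP.Defs3

/-!
# Block B1: barycentric subdivision of mod 2 singular chains
-/

open scoped Topology
open Metric Set

noncomputable section

namespace Pool.Agent.KP

/-! ### Coordinates of faces and of barycentric cells -/

theorem face_apply_self (n : ℕ) (i : Fin (n + 2)) (s : stdSimplex ℝ (Fin (n + 1))) :
    ((face n i s : stdSimplex ℝ (Fin (n + 2))) : Fin (n + 2) → ℝ) i = 0 := by
  show FunOnFinite.linearMap ℝ ℝ (Fin.succAbove i) (s : Fin (n + 1) → ℝ) i = 0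
  rw [FunOnFinite.linearMap_apply_apply]
  apply Finset.sum_eq_zero
  intro x hx
  simp at hx

theorem face_apply_succAbove (n : ℕ) (i : Fin (n + 2)) (s : stdSimplex ℝ (Fin (n + 1)))
    (l : Fin (n + 1)) :
    ((face n i s : stdSimplex ℝ (Fin (n + 2))) : Fin (n + 2) → ℝ) (i.succAbove l) =
      (s : Fin (n + 1) → ℝ) l := by
  show FunOnFinite.linearMap ℝ ℝ (Fin.succAbove i) (s : Fin (n + 1) → ℝ) (i.succAbove l) = _
  rw [FunOnFinite.linearMap_apply_apply]
  rw [Finset.sum_eq_single l]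
  · intro b hb hbl
    simp only [Finset.mem_filter, Finset.mem_univ, true_and] at hb
    exact absurd (Fin.succAbove_right_injective hb) hbl
  · intro h
    simp at h

theorem face_vertex (n : ℕ) (i : Fin (n + 2)) (j : Fin (n + 1)) :
    face n i (stdSimplex.vertex j) = stdSimplex.vertex (i.succAbove j) := by
  show stdSimplex.map (Fin.succAbove i) (stdSimplex.vertex j) = _
  exact stdSimplex.map_vertex _ _

theorem bary_apply (n : ℕ) (π : Equiv.Perm (Fin (n + 1))) (t : stdSimplex ℝ (Fin (n + 1)))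
    (i : Fin (n + 1)) :
    ((bary n π t : stdSimplex ℝ (Fin (n + 1))) : Fin (n + 1) → ℝ) i =
      ∑ j : Fin (n + 1), if π.symm i ≤ j then (t : Fin (n + 1) → ℝ) j / ((j : ℕ) + 1 : ℝ) else 0 :=
  rfl

theorem bary_face_apply (n : ℕ) (π : Equiv.Perm (Fin (n + 2))) (k : Fin (n + 2))
    (s : stdSimplex ℝ (Fin (n + 1))) (i : Fin (n + 2)) :
    ((bary (n + 1) π (face n k s) : stdSimplex ℝ (Fin (n + 2))) : Fin (n + 2) → ℝ) i =
      ∑ l : Fin (n + 1), if π.symm i ≤ k.succAbove l then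
        (s : Fin (n + 1) → ℝ) l / (((k.succAbove l : Fin (n + 2)) : ℕ) + 1 : ℝ) else 0 := by
  rw [bary_apply, Fin.sum_univ_succAbove _ k, face_apply_self]
  simp only [zero_div, ite_self, zero_add]
  refine Finset.sum_congr rfl fun l _ => ?_
  rw [face_apply_succAbove]

theorem swap_le_iff {n : ℕ} (j : Fin (n + 1)) (x k : Fin (n + 2)) (hk : k ≠ j.castSucc) :
    Equiv.swap j.castSucc j.succ x ≤ k ↔ x ≤ k := by
  have hk' : (k : ℕ) ≠ (j : ℕ) := fun h => hk (Fin.ext (by simpa using h))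
  rcases eq_or_ne x j.castSucc with rfl | h1
  · rw [Equiv.swap_apply_left, Fin.le_def, Fin.le_def]
    simp only [Fin.val_succ, Fin.val_castSucc]
    omega
  · rcases eq_or_ne x j.succ with rfl | h2
    · rw [Equiv.swap_apply_right, Fin.le_def, Fin.le_def]
      simp only [Fin.val_succ, Fin.val_castSucc]
      omega
    · rw [Equiv.swap_apply_of_ne_of_ne h1 h2]

theorem bary_swap_comp_face (n : ℕ) (π : Equiv.Perm (Fin (n + 2))) (j : Fin (n + 1)) :
    (bary (n + 1) (π * Equiv.swap j.castSucc j.succ)).comp (face n j.castSucc) =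
      (bary (n + 1) π).comp (face n j.castSucc) := by
  ext s i
  show ((bary (n + 1) (π * Equiv.swap j.castSucc j.succ) (face n j.castSucc s) :
      stdSimplex ℝ (Fin (n + 2))) : Fin (n + 2) → ℝ) i =
    ((bary (n + 1) π (face n j.castSucc s) : stdSimplex ℝ (Fin (n + 2))) : Fin (n + 2) → ℝ) i
  rw [bary_face_apply, bary_face_apply]
  refine Finset.sum_congr rfl fun l _ => ?_
  have h : (π * Equiv.swap j.castSucc j.succ).symm i =
      Equiv.swap j.castSucc j.succ (π.symm i) := by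
    rw [Equiv.symm_apply_eq]
    simp
  rw [h]
  simp only [swap_le_iff j (π.symm i) _ (Fin.succAbove_ne _ _)]

/-- the permutation `π` of `Fin (n+2)` with `π (last) = i` and `π (castSucc k) = i.succAbove (π' k)` -/
def extPerm (n : ℕ) (i : Fin (n + 2)) (π' : Equiv.Perm (Fin (n + 1))) :
    Equiv.Perm (Fin (n + 2)) :=
  (finSuccEquiv' (Fin.last (n + 1))).trans ((Equiv.optionCongr π').trans (finSuccEquiv' i).symm)

theorem extPerm_last (n : ℕ) (i : Fin (n + 2)) (π' : Equiv.Perm (Fin (n + 1))) :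
    extPerm n i π' (Fin.last (n + 1)) = i := by
  simp [extPerm]

theorem extPerm_castSucc (n : ℕ) (i : Fin (n + 2)) (π' : Equiv.Perm (Fin (n + 1)))
    (k : Fin (n + 1)) : extPerm n i π' k.castSucc = i.succAbove (π' k) := by
  simp only [extPerm, Equiv.trans_apply, finSuccEquiv'_last_apply_castSucc, Equiv.optionCongr_apply,
    Option.map_some, finSuccEquiv'_symm_some]

theorem extPerm_bijective (n : ℕ) :
    Function.Bijective (fun p : Fin (n + 2) × Equiv.Perm (Fin (n + 1)) => extPerm n p.1 p.2) := by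
  rw [Fintype.bijective_iff_injective_and_card]
  constructor
  · rintro ⟨i, π⟩ ⟨i', π'⟩ h
    simp only at h
    have h1 : i = i' := by
      rw [← extPerm_last n i π, h, extPerm_last]
    subst h1
    have h2 : π = π' := by
      ext k
      have h3 : i.succAbove (π k) = i.succAbove (π' k) := by
        rw [← extPerm_castSucc, h, extPerm_castSucc]
      rw [Fin.succAbove_right_injective h3]
    rw [h2]
  · rw [Fintype.card_prod, Fintype.card_perm, Fintype.card_perm, Fintype.card_fin,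
      Fintype.card_fin, Nat.factorial_succ (n + 1)]

theorem bary_extPerm_comp_face (n : ℕ) (i : Fin (n + 2)) (π' : Equiv.Perm (Fin (n + 1))) :
    (bary (n + 1) (extPerm n i π')).comp (face n (Fin.last (n + 1))) =
      (face n i).comp (bary n π') := by
  ext s m
  show ((bary (n + 1) (extPerm n i π') (face n (Fin.last (n + 1)) s) :
      stdSimplex ℝ (Fin (n + 2))) : Fin (n + 2) → ℝ) m =
    ((face n i (bary n π' s) : stdSimplex ℝ (Fin (n + 2))) : Fin (n + 2) → ℝ) m
  rw [bary_face_apply]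
  rcases Fin.eq_self_or_eq_succAbove i m with rfl | ⟨q, rfl⟩
  · rw [face_apply_self]
    apply Finset.sum_eq_zero
    intro l _
    have h : (extPerm n m π').symm m = Fin.last (n + 1) := by
      rw [Equiv.symm_apply_eq, extPerm_last]
    rw [h, if_neg]
    rw [Fin.succAbove_last, not_le]
    exact Fin.castSucc_lt_last l
  · rw [face_apply_succAbove, bary_apply]
    refine Finset.sum_congr rfl fun l _ => ?_
    have h : (extPerm n i π').symm (i.succAbove q) = (π'.symm q).castSucc := by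
      rw [Equiv.symm_apply_eq, extPerm_castSucc, Equiv.apply_symm_apply]
    rw [h, Fin.succAbove_last]
    simp only [Fin.castSucc_le_castSucc_iff, Fin.val_castSucc]

/-! ### Basic formulas -/

section Basic

variable {X Y : Type*} [TopologicalSpace X] [TopologicalSpace Y]

theorem bd_single' (n : ℕ) (σ : C(stdSimplex ℝ (Fin (n + 2)), X)) :
    bd n (Finsupp.single σ 1) =
      ∑ i : Fin (n + 2), Finsupp.single (σ.comp (face n i)) (1 : ZMod 2) := by
  simp [bd]

theorem sd_single (n : ℕ) (σ : C(stdSimplex ℝ (Fin (n + 1)), X)) :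
    sd n (Finsupp.single σ 1) =
      ∑ π : Equiv.Perm (Fin (n + 1)), Finsupp.single (σ.comp (bary n π)) (1 : ZMod 2) := by
  simp [sd]

theorem push_single (f : C(X, Y)) (n : ℕ) (σ : C(stdSimplex ℝ (Fin (n + 1)), X)) (c : ZMod 2) :
    push f n (Finsupp.single σ c) = Finsupp.single (f.comp σ) c := by
  simp [push]

theorem cnt_single (n : ℕ) (P : C(stdSimplex ℝ (Fin (n + 1)), X) → Prop)
    (σ : C(stdSimplex ℝ (Fin (n + 1)), X)) [Decidable (P σ)] :
    cnt n P (Finsupp.single σ 1) = if P σ then 1 else 0 := by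
  classical
  simp only [cnt, Finsupp.linearCombination_single, one_smul]
  congr

theorem ch_hom_ext {n : ℕ} {M : Type*} [AddCommMonoid M] [Module (ZMod 2) M]
    {f g : Ch X n →ₗ[ZMod 2] M}
    (h : ∀ σ, f (Finsupp.single σ 1) = g (Finsupp.single σ 1)) : f = g := by
  refine Finsupp.lhom_ext' fun σ => ?_
  refine LinearMap.ext_ring ?_
  simpa using h σ

theorem bd_sd (n : ℕ) (z : Ch X (n + 1)) :
    bd n (sd (n + 1) z) = sd n (bd n z) := by
  have key : (bd n).comp (sd (n + 1)) = (sd n).comp (bd n (X := X)) := by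
    refine ch_hom_ext fun σ => ?_
    rw [LinearMap.comp_apply, LinearMap.comp_apply, sd_single, bd_single', map_sum, map_sum]
    simp only [bd_single', sd_single]
    rw [Finset.sum_comm, Fin.sum_univ_castSucc]
    have h0 : ∀ j : Fin (n + 1), ∑ π : Equiv.Perm (Fin (n + 2)),
        Finsupp.single ((σ.comp (bary (n + 1) π)).comp (face n j.castSucc)) (1 : ZMod 2) = 0 := by
      intro j
      have hne : (j.castSucc : Fin (n + 2)) ≠ j.succ := by
        intro h
        have := congrArg Fin.val h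
        simp at this
      refine Finset.sum_involution (fun π _ => π * Equiv.swap j.castSucc j.succ) ?_ ?_ ?_ ?_
      · intro π _
        rw [ContinuousMap.comp_assoc, ContinuousMap.comp_assoc, bary_swap_comp_face,
          ← Finsupp.single_add]
        have : (1 : ZMod 2) + 1 = 0 := by decide
        rw [this, Finsupp.single_zero]
      · intro π _ _ h
        have h2 : Equiv.swap j.castSucc j.succ = (1 : Equiv.Perm (Fin (n + 2))) := by
          simpa using h
        exact hne (by simpa using h2)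
      · intro π _
        exact Finset.mem_univ _
      · intro π _
        simp [mul_assoc]
    rw [Finset.sum_congr rfl (fun j _ => h0 j), Finset.sum_const_zero, zero_add]
    rw [← (Equiv.ofBijective _ (extPerm_bijective n)).sum_comp, Fintype.sum_prod_type]
    refine Finset.sum_congr rfl fun i _ => ?_
    refine Finset.sum_congr rfl fun π' _ => ?_
    rw [Equiv.ofBijective_apply, ContinuousMap.comp_assoc, ContinuousMap.comp_assoc,
      bary_extPerm_comp_face]
  exact LinearMap.congr_fun key z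

theorem single_mem_chIn (A : Set X) (n : ℕ) (σ : C(stdSimplex ℝ (Fin (n + 1)), X))
    (h : Set.range σ ⊆ A) : Finsupp.single σ (1 : ZMod 2) ∈ chIn A n :=
  Finsupp.single_mem_supported _ _ h

/-- membership in a supported submodule after a map given on basis elements -/
theorem linearCombination_mem {n : ℕ} {M : Type*} [AddCommMonoid M] [Module (ZMod 2) M]
    (z : Ch X n) (v : C(stdSimplex ℝ (Fin (n + 1)), X) → M) (p : Submodule (ZMod 2) M)
    (h : ∀ σ, z σ ≠ 0 → v σ ∈ p) : Finsupp.linearCombination (ZMod 2) v z ∈ p := by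
  rw [Finsupp.linearCombination_apply]
  refine Submodule.sum_mem _ fun σ hσ => ?_
  exact Submodule.smul_mem _ _ (h σ (Finsupp.mem_support_iff.1 hσ))

theorem mem_chIn_iff (A : Set X) (n : ℕ) (z : Ch X n) :
    z ∈ chIn A n ↔ ∀ σ, z σ ≠ 0 → Set.range σ ⊆ A := by
  unfold chIn
  rw [Finsupp.mem_supported]
  constructor
  · intro h σ hσ
    exact h (Finset.mem_coe.2 (Finsupp.mem_support_iff.2 hσ))
  · intro h σ hσ
    exact h σ (Finsupp.mem_support_iff.1 (Finset.mem_coe.1 hσ))

theorem range_comp_subset {Z : Type*} [TopologicalSpace Z] (σ : C(Y, X)) (f : C(Z, Y)) :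
    Set.range (σ.comp f) ⊆ Set.range σ := by
  rintro _ ⟨z, rfl⟩
  exact ⟨f z, rfl⟩

theorem sd_mem (A : Set X) (n : ℕ) (z : Ch X n)
    (hz : z ∈ chIn A n) : sd n z ∈ chIn A n := by
  refine linearCombination_mem z _ _ fun σ hσ => ?_
  refine Submodule.sum_mem _ fun π _ => ?_
  refine single_mem_chIn _ _ _ ?_
  exact (range_comp_subset _ _).trans ((mem_chIn_iff A n z).1 hz σ hσ)

theorem bd_mem (A : Set X) (n : ℕ) (z : Ch X (n + 1))
    (hz : z ∈ chIn A (n + 1)) : bd n z ∈ chIn A n := by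
  refine linearCombination_mem z _ _ fun σ hσ => ?_
  refine Submodule.sum_mem _ fun i _ => ?_
  refine single_mem_chIn _ _ _ ?_
  exact (range_comp_subset _ _).trans ((mem_chIn_iff A (n + 1) z).1 hz σ hσ)

theorem sd_push (f : C(X, Y)) (n : ℕ)
    (z : Ch X n) : sd n (push f n z) = push f n (sd n z) := by
  have key : (sd n).comp (push f n) = (push f n).comp (sd n) := by
    refine ch_hom_ext fun σ => ?_
    rw [LinearMap.comp_apply, LinearMap.comp_apply, push_single, sd_single, sd_single, map_sum]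
    simp only [push_single, ContinuousMap.comp_assoc]
  exact LinearMap.congr_fun key z

theorem bd_push (f : C(X, Y)) (n : ℕ)
    (z : Ch X (n + 1)) : bd n (push f (n + 1) z) = push f n (bd n z) := by
  have key : (bd n).comp (push f (n + 1)) = (push f n).comp (bd n) := by
    refine ch_hom_ext fun σ => ?_
    rw [LinearMap.comp_apply, LinearMap.comp_apply, push_single, bd_single', bd_single', map_sum]
    simp only [push_single, ContinuousMap.comp_assoc]
  exact LinearMap.congr_fun key z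

/-! ### Iterates -/

theorem iter_eq_pow (n m : ℕ) (z : Ch X n) : (sd n)^[m] z = ((sd n : Module.End (ZMod 2) (Ch X n)) ^ m) z := by
  rw [Module.End.pow_apply]

theorem bd_sd_iter (n m : ℕ) (z : Ch X (n + 1)) :
    bd n ((sd (n + 1))^[m] z) = (sd n)^[m] (bd n z) := by
  induction m generalizing z with
  | zero => rfl
  | succ m ih => rw [Function.iterate_succ_apply, Function.iterate_succ_apply, ih, bd_sd]

theorem sd_push_iter (f : C(X, Y)) (n m : ℕ) (z : Ch X n) :
    (sd n)^[m] (push f n z) = push f n ((sd n)^[m] z) := by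
  induction m generalizing z with
  | zero => rfl
  | succ m ih => rw [Function.iterate_succ_apply, Function.iterate_succ_apply, sd_push, ih]

theorem sd_mem_iter (A : Set X) (n m : ℕ) (z : Ch X n)
    (hz : z ∈ chIn A n) : (sd n)^[m] z ∈ chIn A n := by
  induction m generalizing z with
  | zero => exact hz
  | succ m ih => rw [Function.iterate_succ_apply]; exact ih _ (sd_mem A n z hz)

end Basic

/-! ### Shrinking of the cells -/

/-- affine self-maps of the simplex with vertices at coordinatewise distance at most `D` -/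
structure AffSmall (n : ℕ) (D : ℝ)
    (τ : C(stdSimplex ℝ (Fin (n + 1)), stdSimplex ℝ (Fin (n + 1)))) : Prop where
  aff : ∀ (t : stdSimplex ℝ (Fin (n + 1))) (i : Fin (n + 1)), (τ t : Fin (n + 1) → ℝ) i =
    ∑ j, (t : Fin (n + 1) → ℝ) j * (τ (stdSimplex.vertex j) : Fin (n + 1) → ℝ) i
  small : ∀ j j' i, |(τ (stdSimplex.vertex j) : Fin (n + 1) → ℝ) i -
    (τ (stdSimplex.vertex j') : Fin (n + 1) → ℝ) i| ≤ D

theorem bary_vertex (n : ℕ) (π : Equiv.Perm (Fin (n + 1))) (k i : Fin (n + 1)) :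
    ((bary n π (stdSimplex.vertex k) : stdSimplex ℝ (Fin (n + 1))) : Fin (n + 1) → ℝ) i =
      if π.symm i ≤ k then 1 / ((k : ℕ) + 1 : ℝ) else 0 := by
  rw [bary_apply, Finset.sum_eq_single k]
  · simp
  · intro b _ hb
    simp [Pi.single_eq_of_ne hb]
  · intro h
    simp at h

theorem bary_aff (n : ℕ) (π : Equiv.Perm (Fin (n + 1))) (t : stdSimplex ℝ (Fin (n + 1)))
    (i : Fin (n + 1)) :
    ((bary n π t : stdSimplex ℝ (Fin (n + 1))) : Fin (n + 1) → ℝ) i =
      ∑ j, (t : Fin (n + 1) → ℝ) j *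
        ((bary n π (stdSimplex.vertex j) : stdSimplex ℝ (Fin (n + 1))) : Fin (n + 1) → ℝ) i := by
  rw [bary_apply]
  refine Finset.sum_congr rfl fun j _ => ?_
  rw [bary_vertex]
  split_ifs
  · ring
  · ring

theorem avg_sub_avg (n : ℕ) (D : ℝ) (x : Fin (n + 1) → ℝ) (hx : ∀ l l', |x l - x l'| ≤ D)
    (k k' : Fin (n + 1)) :
    |(∑ l ∈ Finset.Iic k, x l) / ((k : ℕ) + 1 : ℝ) - (∑ l ∈ Finset.Iic k', x l) / ((k' : ℕ) + 1 : ℝ)|
      ≤ (1 - 1 / ((n : ℝ) + 1) ^ 2) * D := by
  have hD : 0 ≤ D := (abs_nonneg _).trans (hx 0 0)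
  have hk : (0 : ℝ) < (k : ℕ) + 1 := by positivity
  have hk' : (0 : ℝ) < (k' : ℕ) + 1 := by positivity
  have hkn : ((k : ℕ) : ℝ) + 1 ≤ (n : ℝ) + 1 := by
    have := k.is_lt
    have h2 : (k : ℕ) ≤ n := by omega
    have : ((k : ℕ) : ℝ) ≤ n := by exact_mod_cast h2
    linarith
  have hkn' : ((k' : ℕ) : ℝ) + 1 ≤ (n : ℝ) + 1 := by
    have := k'.is_lt
    have h2 : (k' : ℕ) ≤ n := by omega
    have : ((k' : ℕ) : ℝ) ≤ n := by exact_mod_cast h2
    linarith
  have hc : (Finset.Iic k).card = (k : ℕ) + 1 := Fin.card_Iic k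
  have hc' : (Finset.Iic k').card = (k' : ℕ) + 1 := Fin.card_Iic k'
  have h1 : ∑ l ∈ Finset.Iic k, ∑ l' ∈ Finset.Iic k', (x l - x l') =
      ((k' : ℕ) + 1 : ℝ) * (∑ l ∈ Finset.Iic k, x l) -
        ((k : ℕ) + 1 : ℝ) * (∑ l ∈ Finset.Iic k', x l) := by
    simp only [Finset.sum_sub_distrib, Finset.sum_const, hc, hc', nsmul_eq_mul]
    rw [← Finset.mul_sum]
    push_cast
    ring
  have h2 : |∑ l ∈ Finset.Iic k, ∑ l' ∈ Finset.Iic k', (x l - x l')| ≤
      (((k : ℕ) + 1 : ℝ) * ((k' : ℕ) + 1 : ℝ) - 1) * D := by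
    have h3 : ∑ l ∈ Finset.Iic k, ∑ l' ∈ Finset.Iic k',
        (D - if l = 0 then (if l' = 0 then D else 0) else 0) =
        (((k : ℕ) + 1 : ℝ) * ((k' : ℕ) + 1 : ℝ) - 1) * D := by
      simp only [Finset.sum_sub_distrib, Finset.sum_const, hc, hc', nsmul_eq_mul]
      have h4 : ∑ l ∈ Finset.Iic k, ∑ l' ∈ Finset.Iic k',
          (if l = 0 then (if l' = 0 then D else 0) else 0) = D := by
        rw [Finset.sum_eq_single (0 : Fin (n + 1))]
        · rw [Finset.sum_eq_single (0 : Fin (n + 1))]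
          · simp
          · intro b _ hb
            simp [hb]
          · intro h
            exact absurd (Finset.mem_Iic.2 (Fin.zero_le k')) h
        · intro b _ hb
          simp [hb]
        · intro h
          exact absurd (Finset.mem_Iic.2 (Fin.zero_le k)) h
      rw [h4]
      push_cast
      ring
    rw [← h3]
    refine (Finset.abs_sum_le_sum_abs _ _).trans (Finset.sum_le_sum fun l _ => ?_)
    refine (Finset.abs_sum_le_sum_abs _ _).trans (Finset.sum_le_sum fun l' _ => ?_)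
    split_ifs with h5 h6
    · rw [h5, h6]; simp
    · simpa using hx l l'
    · simpa using hx l l'
  have h3 : (∑ l ∈ Finset.Iic k, x l) / ((k : ℕ) + 1 : ℝ) -
      (∑ l ∈ Finset.Iic k', x l) / ((k' : ℕ) + 1 : ℝ) =
      (∑ l ∈ Finset.Iic k, ∑ l' ∈ Finset.Iic k', (x l - x l')) /
        (((k : ℕ) + 1 : ℝ) * ((k' : ℕ) + 1 : ℝ)) := by
    rw [h1]
    field_simp
  rw [h3, abs_div, abs_of_pos (mul_pos hk hk'), div_le_iff₀ (mul_pos hk hk')]
  refine h2.trans ?_
  have h4 : (((k : ℕ) + 1 : ℝ) * ((k' : ℕ) + 1 : ℝ)) / ((n : ℝ) + 1) ^ 2 ≤ 1 := by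
    rw [div_le_one (by positivity), pow_two]
    exact mul_le_mul hkn hkn' hk'.le (by positivity)
  have h5 : (((k : ℕ) + 1 : ℝ) * ((k' : ℕ) + 1 : ℝ) - 1) ≤
      (1 - 1 / ((n : ℝ) + 1) ^ 2) * (((k : ℕ) + 1 : ℝ) * ((k' : ℕ) + 1 : ℝ)) := by
    have : (1 - 1 / ((n : ℝ) + 1) ^ 2) * (((k : ℕ) + 1 : ℝ) * ((k' : ℕ) + 1 : ℝ)) =
      (((k : ℕ) + 1 : ℝ) * ((k' : ℕ) + 1 : ℝ)) -
        (((k : ℕ) + 1 : ℝ) * ((k' : ℕ) + 1 : ℝ)) / ((n : ℝ) + 1) ^ 2 := by ring
    rw [this]
    linarith
  calc (((k : ℕ) + 1 : ℝ) * ((k' : ℕ) + 1 : ℝ) - 1) * D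
      ≤ ((1 - 1 / ((n : ℝ) + 1) ^ 2) * (((k : ℕ) + 1 : ℝ) * ((k' : ℕ) + 1 : ℝ))) * D :=
        mul_le_mul_of_nonneg_right h5 hD
    _ = _ := by ring

theorem AffSmall.comp_bary {n : ℕ} {D : ℝ}
    {τ : C(stdSimplex ℝ (Fin (n + 1)), stdSimplex ℝ (Fin (n + 1)))} (h : AffSmall n D τ)
    (π : Equiv.Perm (Fin (n + 1))) :
    AffSmall n ((1 - 1 / ((n : ℝ) + 1) ^ 2) * D) (τ.comp (bary n π)) := by
  constructor
  · intro t i
    show (τ (bary n π t) : Fin (n + 1) → ℝ) i = ∑ j, (t : Fin (n + 1) → ℝ) j *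
      (τ (bary n π (stdSimplex.vertex j)) : Fin (n + 1) → ℝ) i
    rw [h.aff]
    have : ∀ j, (τ (bary n π (stdSimplex.vertex j)) : Fin (n + 1) → ℝ) i =
        ∑ q, (bary n π (stdSimplex.vertex j) : Fin (n + 1) → ℝ) q *
          (τ (stdSimplex.vertex q) : Fin (n + 1) → ℝ) i := fun j => h.aff _ i
    simp only [this, Finset.mul_sum]
    rw [Finset.sum_comm]
    refine Finset.sum_congr rfl fun q _ => ?_
    rw [bary_aff, Finset.sum_mul]
    refine Finset.sum_congr rfl fun j _ => ?_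
    ring
  · intro k k' i
    show |(τ (bary n π (stdSimplex.vertex k)) : Fin (n + 1) → ℝ) i -
      (τ (bary n π (stdSimplex.vertex k')) : Fin (n + 1) → ℝ) i| ≤ _
    have key : ∀ k, (τ (bary n π (stdSimplex.vertex k)) : Fin (n + 1) → ℝ) i =
        (∑ l ∈ Finset.Iic k, (τ (stdSimplex.vertex (π l)) : Fin (n + 1) → ℝ) i) /
          ((k : ℕ) + 1 : ℝ) := by
      intro k
      rw [h.aff, ← Equiv.sum_comp π, Finset.sum_div, ← Finset.sum_filter_of_ne (p := fun l => l ≤ k)]
      · refine Finset.sum_congr ?_ fun l hl => ?_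
        · ext l; simp
        · have hl' : l ≤ k := by simpa using hl
          rw [bary_vertex, Equiv.symm_apply_apply, if_pos hl']
          ring
      · intro l _ hne
        by_contra hlk
        apply hne
        rw [bary_vertex, Equiv.symm_apply_apply, if_neg hlk, zero_mul]
    rw [key, key]
    exact avg_sub_avg n D _ (fun l l' => h.small _ _ _) k k'

theorem affSmall_id (n : ℕ) : AffSmall n 1 (ContinuousMap.id _) := by
  constructor
  · intro t i
    show (t : Fin (n + 1) → ℝ) i = ∑ j, (t : Fin (n + 1) → ℝ) j *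
      (stdSimplex.vertex j : stdSimplex ℝ (Fin (n + 1))) i
    rw [Finset.sum_eq_single i]
    · simp
    · intro b _ hb
      simp [Pi.single_eq_of_ne hb.symm]
    · intro h
      simp at h
  · intro j j' i
    show |(stdSimplex.vertex j : stdSimplex ℝ (Fin (n + 1))) i -
      (stdSimplex.vertex j' : stdSimplex ℝ (Fin (n + 1))) i| ≤ 1
    rw [abs_le]
    have h1 := stdSimplex.zero_le (stdSimplex.vertex j : stdSimplex ℝ (Fin (n + 1))) i
    have h2 := stdSimplex.le_one (stdSimplex.vertex j : stdSimplex ℝ (Fin (n + 1))) i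
    have h3 := stdSimplex.zero_le (stdSimplex.vertex j' : stdSimplex ℝ (Fin (n + 1))) i
    have h4 := stdSimplex.le_one (stdSimplex.vertex j' : stdSimplex ℝ (Fin (n + 1))) i
    constructor <;> linarith

theorem AffSmall.dist_le {n : ℕ} {D : ℝ}
    {τ : C(stdSimplex ℝ (Fin (n + 1)), stdSimplex ℝ (Fin (n + 1)))} (h : AffSmall n D τ)
    (s t : stdSimplex ℝ (Fin (n + 1))) : dist (τ s) (τ t) ≤ D := by
  have hD : 0 ≤ D := (abs_nonneg _).trans (h.small 0 0 0)
  rw [Subtype.dist_eq, dist_pi_le_iff hD]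
  intro i
  rw [Real.dist_eq]
  have hs : ∑ j, (s : Fin (n + 1) → ℝ) j = 1 := s.2.2
  have ht : ∑ j, (t : Fin (n + 1) → ℝ) j = 1 := t.2.2
  have h1 : (τ s : Fin (n + 1) → ℝ) i - (τ t : Fin (n + 1) → ℝ) i =
      ∑ j, ∑ j', (s : Fin (n + 1) → ℝ) j * (t : Fin (n + 1) → ℝ) j' *
        ((τ (stdSimplex.vertex j) : Fin (n + 1) → ℝ) i -
          (τ (stdSimplex.vertex j') : Fin (n + 1) → ℝ) i) := by
    simp only [mul_sub, Finset.sum_sub_distrib]
    have e1 : ∑ j, ∑ j', (s : Fin (n + 1) → ℝ) j * (t : Fin (n + 1) → ℝ) j' *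
        (τ (stdSimplex.vertex j) : Fin (n + 1) → ℝ) i = (τ s : Fin (n + 1) → ℝ) i := by
      rw [h.aff s i]
      refine Finset.sum_congr rfl fun j _ => ?_
      rw [← Finset.sum_mul, ← Finset.mul_sum, ht, mul_one]
    have e2 : ∑ j, ∑ j', (s : Fin (n + 1) → ℝ) j * (t : Fin (n + 1) → ℝ) j' *
        (τ (stdSimplex.vertex j') : Fin (n + 1) → ℝ) i = (τ t : Fin (n + 1) → ℝ) i := by
      rw [h.aff t i, Finset.sum_comm]
      refine Finset.sum_congr rfl fun j _ => ?_
      rw [← Finset.sum_mul, ← Finset.sum_mul, hs, one_mul]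
    rw [e1, e2]
  change |(τ s : Fin (n + 1) → ℝ) i - (τ t : Fin (n + 1) → ℝ) i| ≤ D
  rw [h1]
  have h2 : ∑ j, ∑ j', (s : Fin (n + 1) → ℝ) j * (t : Fin (n + 1) → ℝ) j' * D = D := by
    simp only [← Finset.sum_mul, ← Finset.mul_sum, hs, ht]
    ring
  rw [← h2]
  refine (Finset.abs_sum_le_sum_abs _ _).trans (Finset.sum_le_sum fun j _ => ?_)
  refine (Finset.abs_sum_le_sum_abs _ _).trans (Finset.sum_le_sum fun j' _ => ?_)
  have h3 : (0 : ℝ) ≤ (s : Fin (n + 1) → ℝ) j * (t : Fin (n + 1) → ℝ) j' :=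
    mul_nonneg (s.2.1 j) (t.2.1 j')
  rw [abs_mul, abs_of_nonneg h3]
  exact mul_le_mul_of_nonneg_left (h.small _ _ _) h3

/-- the cells of the `m`-th subdivision of the simplex are affine and small -/
theorem sd_iter_id (n m : ℕ) :
    (sd n)^[m] (Finsupp.single (ContinuousMap.id (stdSimplex ℝ (Fin (n + 1)))) 1) ∈
      Finsupp.supported (ZMod 2) (ZMod 2)
        {τ | AffSmall n ((1 - 1 / ((n : ℝ) + 1) ^ 2) ^ m) τ} := by
  induction m with
  | zero =>
    refine Finsupp.single_mem_supported _ _ ?_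
    show AffSmall n _ _
    rw [pow_zero]
    exact affSmall_id n
  | succ m ih =>
    rw [Function.iterate_succ_apply']
    refine linearCombination_mem _ _ _ fun τ hτ => ?_
    refine Submodule.sum_mem _ fun π _ => ?_
    refine Finsupp.single_mem_supported _ _ ?_
    have h1 : AffSmall n ((1 - 1 / ((n : ℝ) + 1) ^ 2) ^ m) τ :=
      (Finsupp.mem_supported _ _).1 ih (Finset.mem_coe.2 (Finsupp.mem_support_iff.2 hτ))
    show AffSmall n _ _
    rw [pow_succ']
    exact h1.comp_bary π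

/-- iterated subdivisions are finer than any open cover (one simplex) -/
theorem sd_small_single {X : Type*} [TopologicalSpace X] (n : ℕ)
    (σ : C(stdSimplex ℝ (Fin (n + 1)), X)) {ι : Type*}
    (U : ι → Set X) (hU : ∀ i, IsOpen (U i)) (hcov : ∀ x : X, ∃ i, x ∈ U i) :
    ∃ m₀ : ℕ, ∀ m ≥ m₀, (sd n)^[m] (Finsupp.single σ 1) ∈
      Finsupp.supported (ZMod 2) (ZMod 2)
        {τ : C(stdSimplex ℝ (Fin (n + 1)), X) | ∃ i, Set.range τ ⊆ U i} := by
  classical
  obtain ⟨δ, hδ, hball⟩ := lebesgue_number_lemma_of_metric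
    (s := (Set.univ : Set (stdSimplex ℝ (Fin (n + 1))))) (c := fun i => σ ⁻¹' U i)
    isCompact_univ (fun i => (hU i).preimage σ.continuous) (by
      intro x _
      obtain ⟨i, hi⟩ := hcov (σ x)
      exact Set.mem_iUnion.2 ⟨i, hi⟩)
  have hr0 : 0 ≤ 1 - 1 / ((n : ℝ) + 1) ^ 2 := by
    rw [sub_nonneg, div_le_one (by positivity)]
    have : (0 : ℝ) ≤ n := Nat.cast_nonneg n
    nlinarith
  have hr1 : 1 - 1 / ((n : ℝ) + 1) ^ 2 < 1 := by
    have : 0 < 1 / ((n : ℝ) + 1) ^ 2 := by positivity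
    linarith
  obtain ⟨m₀, hm₀⟩ := exists_pow_lt_of_lt_one hδ hr1
  refine ⟨m₀, fun m hm => ?_⟩
  have h1 : Finsupp.single σ (1 : ZMod 2) = push σ n (Finsupp.single (ContinuousMap.id _) 1) := by
    rw [push_single]; rfl
  rw [h1, sd_push_iter]
  unfold push
  rw [Finsupp.lmapDomain_apply]
  have h2 := sd_iter_id n m
  rw [Finsupp.mem_supported] at h2 ⊢
  intro τ' hτ'
  have h3 := Finsupp.mapDomain_support (Finset.mem_coe.1 hτ')
  obtain ⟨τ, hτ, rfl⟩ := Finset.mem_image.1 h3
  have h4 : AffSmall n ((1 - 1 / ((n : ℝ) + 1) ^ 2) ^ m) τ := h2 (Finset.mem_coe.2 hτ)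
  obtain ⟨i, hi⟩ := hball (τ (stdSimplex.vertex 0)) (Set.mem_univ _)
  refine ⟨i, ?_⟩
  rintro _ ⟨s, rfl⟩
  apply hi
  rw [Metric.mem_ball]
  calc dist (τ s) (τ (stdSimplex.vertex 0)) ≤ (1 - 1 / ((n : ℝ) + 1) ^ 2) ^ m := h4.dist_le _ _
    _ ≤ (1 - 1 / ((n : ℝ) + 1) ^ 2) ^ m₀ := pow_le_pow_of_le_one hr0 hr1.le hm
    _ < δ := hm₀

/-- iterated subdivisions are finer than any open cover -/
theorem sd_small {X : Type*} [TopologicalSpace X] (n : ℕ) (z : Ch X n) {ι : Type*}
    (U : ι → Set X) (hU : ∀ i, IsOpen (U i)) (hcov : ∀ x : X, ∃ i, x ∈ U i) :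
    ∃ m₀ : ℕ, ∀ m ≥ m₀, (sd n)^[m] z ∈
      Finsupp.supported (ZMod 2) (ZMod 2)
        {τ : C(stdSimplex ℝ (Fin (n + 1)), X) | ∃ i, Set.range τ ⊆ U i} := by
  classical
  choose m₁ hm₁ using fun σ => sd_small_single n σ U hU hcov
  refine ⟨z.support.sup m₁, fun m hm => ?_⟩
  rw [iter_eq_pow]
  have h1 : z = ∑ σ ∈ z.support, z σ • Finsupp.single σ (1 : ZMod 2) := by
    conv_lhs => rw [← Finsupp.sum_single z]
    refine Finset.sum_congr rfl fun σ _ => ?_
    rw [Finsupp.smul_single, smul_eq_mul, mul_one]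
  rw [h1, map_sum]
  refine Submodule.sum_mem _ fun σ hσ => ?_
  rw [map_smul, ← iter_eq_pow]
  exact Submodule.smul_mem _ _ (hm₁ σ m ((Finset.le_sup hσ).trans hm))

end Pool.Agent.KP
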