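import Pool.Agent.Lib_helper74.KP.B1

/-!
# Block B2: Sperner's lemma for iterated subdivisions, and parity on a cell
-/

open scoped Topology
open Metric Set

noncomputable section

namespace Pool.Agent.KP

/-! ### Counting -/

section Count

variable {X Y : Type*} [TopologicalSpace X] [TopologicalSpace Y]

theorem cnt_congr {n : ℕ} {P Q : C(stdSimplex ℝ (Fin (n + 1)), X) → Prop} {z : Ch X n}
    (h : ∀ σ, z σ ≠ 0 → (P σ ↔ Q σ)) : cnt n P z = cnt n Q z := by
  classical
  unfold cnt
  rw [Finsupp.linearCombination_apply, Finsupp.linearCombination_apply]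
  refine Finsupp.sum_congr fun σ hσ => ?_
  have := h σ (Finsupp.mem_support_iff.1 hσ)
  by_cases hP : P σ
  · have hQ := this.1 hP
    simp [hP, hQ]
  · have hQ : ¬ Q σ := fun hq => hP (this.2 hq)
    simp [hP, hQ]

theorem cnt_eq_zero {n : ℕ} {P : C(stdSimplex ℝ (Fin (n + 1)), X) → Prop} {z : Ch X n}
    (h : ∀ σ, z σ ≠ 0 → ¬ P σ) : cnt n P z = 0 := by
  classical
  unfold cnt
  rw [Finsupp.linearCombination_apply]
  refine Finset.sum_eq_zero fun σ hσ => ?_
  have := h σ (Finsupp.mem_support_iff.1 hσ)
  simp [this]

theorem cnt_push (f : C(X, Y)) (n : ℕ) (P : C(stdSimplex ℝ (Fin (n + 1)), Y) → Prop)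
    (z : Ch X n) : cnt n P (push f n z) = cnt n (fun σ => P (f.comp σ)) z := by
  classical
  have key : (cnt n P).comp (push f n) = cnt n (fun σ => P (f.comp σ)) := by
    refine ch_hom_ext fun σ => ?_
    rw [LinearMap.comp_apply, push_single, cnt_single, cnt_single]
  exact LinearMap.congr_fun key z

/-- the boundary is counted cell by cell -/
theorem cnt_bd_eq_zero {n : ℕ} {P : C(stdSimplex ℝ (Fin (n + 1)), X) → Prop} {z : Ch X (n + 1)}
    (h : ∀ σ, z σ ≠ 0 → cnt n P (bd n (Finsupp.single σ 1)) = 0) : cnt n P (bd n z) = 0 := by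
  classical
  have h1 : z = ∑ σ ∈ z.support, z σ • Finsupp.single σ (1 : ZMod 2) := by
    conv_lhs => rw [← Finsupp.sum_single z]
    refine Finset.sum_congr rfl fun σ _ => ?_
    rw [Finsupp.smul_single, smul_eq_mul, mul_one]
  rw [h1, map_sum, map_sum]
  refine Finset.sum_eq_zero fun σ hσ => ?_
  rw [map_smul, map_smul, h σ (Finsupp.mem_support_iff.1 hσ), smul_zero]

end Count

/-! ### Parity -/

/-- parity: if two of the `n+2` labels agree then an even number of faces carries
distinct labels, all in `S` -/
theorem parity_of_eq {n : ℕ} {α : Type*} (L : Fin (n + 2) → α) (S : Set α) {a b : Fin (n + 2)}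
    (hab : a ≠ b) (hL : L a = L b) (P : Fin (n + 2) → Prop) [DecidablePred P]
    (hP : ∀ i, P i ↔ (Function.Injective (fun j => L (i.succAbove j)) ∧
      ∀ j, L (i.succAbove j) ∈ S)) :
    ∑ i, (if P i then (1 : ZMod 2) else 0) = 0 := by
  classical
  have hP' : ∀ i, P i ↔ (Set.InjOn L {i}ᶜ ∧ ∀ j, j ≠ i → L j ∈ S) := by
    intro i
    rw [hP]
    constructor
    · rintro ⟨h1, h2⟩
      refine ⟨?_, ?_⟩
      · intro x hx y hy hxy
        obtain ⟨x', rfl⟩ := Fin.exists_succAbove_eq (x := x) (y := i) hx
        obtain ⟨y', rfl⟩ := Fin.exists_succAbove_eq (x := y) (y := i) hy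
        rw [h1 hxy]
      · intro j hj
        obtain ⟨x', rfl⟩ := Fin.exists_succAbove_eq (x := j) (y := i) hj
        exact h2 x'
    · rintro ⟨h1, h2⟩
      refine ⟨?_, ?_⟩
      · intro x y hxy
        exact Fin.succAbove_right_injective (h1 (Fin.succAbove_ne i x) (Fin.succAbove_ne i y) hxy)
      · intro j
        exact h2 _ (Fin.succAbove_ne i j)
  have hswap : ∀ i, L (Equiv.swap a b i) = L i := by
    intro i
    rcases eq_or_ne i a with rfl | h1
    · rw [Equiv.swap_apply_left, hL]
    · rcases eq_or_ne i b with rfl | h2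
      · rw [Equiv.swap_apply_right, hL]
      · rw [Equiv.swap_apply_of_ne_of_ne h1 h2]
  have hmem : ∀ i, P i → i = a ∨ i = b := by
    intro i hi
    by_contra hne
    push Not at hne
    exact hab (((hP' i).1 hi).1 (fun h => hne.1 h.symm) (fun h => hne.2 h.symm) hL)
  have himp : ∀ i, P i → P (Equiv.swap a b i) := by
    intro i hi
    have h := (hP' i).1 hi
    rw [hP']
    refine ⟨?_, ?_⟩
    · intro x hx y hy hxy
      have hx' : Equiv.swap a b x ∈ ({i} : Set (Fin (n + 2)))ᶜ := by
        intro h3
        apply hx
        rw [Set.mem_singleton_iff] at h3 ⊢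
        rw [← h3, Equiv.swap_apply_self]
      have hy' : Equiv.swap a b y ∈ ({i} : Set (Fin (n + 2)))ᶜ := by
        intro h3
        apply hy
        rw [Set.mem_singleton_iff] at h3 ⊢
        rw [← h3, Equiv.swap_apply_self]
      exact (Equiv.swap a b).injective (h.1 hx' hy' (by rw [hswap, hswap]; exact hxy))
    · intro j hj
      have h3 := h.2 (Equiv.swap a b j) (by
        intro h3
        apply hj
        rw [← h3, Equiv.swap_apply_self])
      rwa [hswap] at h3
  have hiff : ∀ i, P (Equiv.swap a b i) ↔ P i := by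
    intro i
    refine ⟨fun h => ?_, himp i⟩
    have := himp _ h
    rwa [Equiv.swap_apply_self] at this
  refine Finset.sum_involution (fun i _ => Equiv.swap a b i) ?_ ?_ ?_ ?_
  · intro i _
    simp only [hiff i]
    split_ifs
    · decide
    · simp
  · intro i _ h1 h2
    have hPi : P i := by
      by_contra h3
      exact h1 (if_neg h3)
    rcases hmem i hPi with rfl | rfl
    · rw [Equiv.swap_apply_left] at h2
      exact hab h2.symm
    · rw [Equiv.swap_apply_right] at h2
      exact hab h2
  · intro i _
    exact Finset.mem_univ _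
  · intro i _
    simp

theorem cnt_bd_single {X : Type*} [TopologicalSpace X] (n : ℕ)
    (P : C(stdSimplex ℝ (Fin (n + 1)), X) → Prop) [DecidablePred P]
    (τ : C(stdSimplex ℝ (Fin (n + 2)), X)) :
    cnt n P (bd n (Finsupp.single τ 1)) =
      ∑ i : Fin (n + 2), if P (τ.comp (face n i)) then (1 : ZMod 2) else 0 := by
  rw [bd_single', map_sum]
  refine Finset.sum_congr rfl fun i _ => ?_
  rw [cnt_single]

/-- a labelled `(n+1)`-simplex has an even number of fully labelled faces, labels in `Fin (n+1)` -/
theorem even_full_faces {X : Type*} [TopologicalSpace X] (n : ℕ) (lab : X → Fin (n + 1))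
    (τ : C(stdSimplex ℝ (Fin (n + 2)), X)) :
    cnt n (fun σ => Function.Bijective (fun j => lab (σ (stdSimplex.vertex j))))
      (bd n (Finsupp.single τ 1)) = 0 := by
  classical
  rw [cnt_bd_single]
  set L : Fin (n + 2) → Fin (n + 1) := fun j => lab (τ (stdSimplex.vertex j)) with hLdef
  obtain ⟨a, b, hab, hL⟩ := Fintype.exists_ne_map_eq_of_card_lt L (by simp)
  refine parity_of_eq L Set.univ hab hL _ ?_
  intro i
  have h1 : (fun j => lab ((τ.comp (face n i)) (stdSimplex.vertex j))) =
      fun j => L (i.succAbove j) := by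
    funext j
    rw [ContinuousMap.comp_apply, face_vertex]
  rw [h1]
  simp only [Set.mem_univ, implies_true, and_true]
  exact (Finite.injective_iff_bijective).symm

/-! ### Sperner -/

/-- door simplices: all labels distinct and none of them the last one -/
def Door {X : Type*} [TopologicalSpace X] (n : ℕ) (lab : X → Fin (n + 2))
    (σ : C(stdSimplex ℝ (Fin (n + 1)), X)) : Prop :=
  Function.Injective (fun j => lab (σ (stdSimplex.vertex j))) ∧
    ∀ j, lab (σ (stdSimplex.vertex j)) ≠ Fin.last (n + 1)

theorem door_bd {X : Type*} [TopologicalSpace X] (n : ℕ) (lab : X → Fin (n + 2))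
    (z : Ch X (n + 1)) :
    cnt n (Door n lab) (bd n z) =
      cnt (n + 1) (fun σ => Function.Bijective (fun j => lab (σ (stdSimplex.vertex j)))) z := by
  classical
  have key : (cnt n (Door n lab)).comp (bd n) =
      cnt (n + 1) (fun σ => Function.Bijective (fun j => lab (σ (stdSimplex.vertex j)))) := by
    refine ch_hom_ext fun τ => ?_
    rw [LinearMap.comp_apply, cnt_bd_single, cnt_single]
    set L : Fin (n + 2) → Fin (n + 2) := fun j => lab (τ (stdSimplex.vertex j)) with hLdef
    have hD : ∀ i, Door n lab (τ.comp (face n i)) ↔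
        (Function.Injective (fun j => L (i.succAbove j)) ∧
          ∀ j, L (i.succAbove j) ∈ ({Fin.last (n + 1)}ᶜ : Set (Fin (n + 2)))) := by
      intro i
      unfold Door
      simp only [ContinuousMap.comp_apply, face_vertex, Set.mem_compl_iff, Set.mem_singleton_iff]
      rfl
    split_ifs with hbij
    · obtain ⟨i₀, hi₀⟩ := hbij.2 (Fin.last (n + 1))
      rw [Finset.sum_eq_single i₀, if_pos]
      · rw [hD]
        refine ⟨fun x y hxy => Fin.succAbove_right_injective (hbij.1 hxy), fun j hj => ?_⟩
        rw [Set.mem_singleton_iff, ← hi₀] at hj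
        exact Fin.succAbove_ne i₀ j (hbij.1 hj)
      · intro i _ hi
        rw [if_neg]
        rw [hD]
        rintro ⟨_, h2⟩
        obtain ⟨j, hj⟩ := Fin.exists_succAbove_eq (x := i₀) (y := i) hi.symm
        apply h2 j
        rw [Set.mem_singleton_iff, hj]
        exact hi₀
      · intro h
        simp at h
    · have hninj : ¬ Function.Injective L := fun h => hbij (Finite.injective_iff_bijective.1 h)
      rw [Function.Injective] at hninj
      push Not at hninj
      obtain ⟨a, b, hL, hab⟩ := hninj
      exact parity_of_eq L _ hab hL _ hD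
  exact LinearMap.congr_fun key z

theorem cnt_true_sd_zero {X : Type*} [TopologicalSpace X] (m : ℕ) (z : Ch X 0) :
    cnt 0 (fun _ => True) ((sd 0)^[m] z) = cnt 0 (fun _ => True) z := by
  classical
  induction m generalizing z with
  | zero => rfl
  | succ m ih =>
    rw [Function.iterate_succ_apply, ih]
    have key : (cnt 0 (fun _ => True)).comp (sd 0) = cnt (X := X) 0 (fun _ => True) := by
      refine ch_hom_ext fun σ => ?_
      rw [LinearMap.comp_apply, sd_single, map_sum]
      simp only [cnt_single, if_true]
      simp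
    exact LinearMap.congr_fun key z

theorem sperner (n m : ℕ) (lab : stdSimplex ℝ (Fin (n + 1)) → Fin (n + 1))
    (hlab : ∀ t : stdSimplex ℝ (Fin (n + 1)), (t : Fin (n + 1) → ℝ) (lab t) ≠ 0) :
    cnt n (fun σ => Function.Bijective (fun j => lab (σ (stdSimplex.vertex j))))
      ((sd n)^[m] (Finsupp.single (ContinuousMap.id _) 1)) = 1 := by
  classical
  induction n with
  | zero =>
    have h1 : (fun σ : C(stdSimplex ℝ (Fin (0 + 1)), stdSimplex ℝ (Fin (0 + 1))) =>
        Function.Bijective (fun j => lab (σ (stdSimplex.vertex j)))) = fun _ => True := by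
      funext σ
      rw [eq_iff_iff, iff_true]
      constructor
      · intro x y _
        exact Fin.ext (by omega)
      · intro x
        exact ⟨0, Fin.ext (by omega)⟩
    rw [h1, cnt_true_sd_zero, cnt_single, if_pos trivial]
  | succ n ih =>
    rw [← door_bd, bd_sd_iter, bd_single']
    have h0 : ∀ i : Fin (n + 2), (Finsupp.single ((ContinuousMap.id _).comp (face n i)) (1 : ZMod 2)) =
        push (face n i) n (Finsupp.single (ContinuousMap.id _) 1) := by
      intro i
      rw [push_single]
      rfl
    simp only [h0]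
    rw [iter_eq_pow, map_sum, map_sum, Fin.sum_univ_castSucc]
    simp only [← iter_eq_pow, sd_push_iter, cnt_push]
    have h1 : ∀ i : Fin (n + 1), cnt n (fun σ => Door n lab ((face n i.castSucc).comp σ))
        ((sd n)^[m] (Finsupp.single (ContinuousMap.id _) 1)) = 0 := by
      intro i
      refine cnt_eq_zero fun σ _ hσ => ?_
      obtain ⟨h2, h3⟩ := hσ
      -- labels avoid `i.castSucc` and `last`, but are `n + 1` distinct labels
      have h4 : ∀ j, lab (((face n i.castSucc).comp σ) (stdSimplex.vertex j)) ∈
          (Finset.univ.erase (Fin.last (n + 1))).erase i.castSucc := by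
        intro j
        rw [Finset.mem_erase, Finset.mem_erase]
        refine ⟨?_, h3 j, Finset.mem_univ _⟩
        intro h5
        have h6 := hlab (((face n i.castSucc).comp σ) (stdSimplex.vertex j))
        rw [h5] at h6
        exact h6 (face_apply_self n i.castSucc _)
      have h5 := Finset.card_le_card_of_injOn
        (s := (Finset.univ : Finset (Fin (n + 1)))) _ (fun j _ => h4 j) (fun x _ y _ h => h2 h)
      rw [Finset.card_erase_of_mem, Finset.card_erase_of_mem (Finset.mem_univ _)] at h5
      · simp at h5
      · rw [Finset.mem_erase]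
        exact ⟨(Fin.castSucc_lt_last i).ne, Finset.mem_univ _⟩
    rw [Finset.sum_congr rfl (fun i _ => h1 i), Finset.sum_const_zero, zero_add]
    have h2 : ∀ t : stdSimplex ℝ (Fin (n + 1)), lab (face n (Fin.last (n + 1)) t) ≠
        Fin.last (n + 1) := by
      intro t h3
      have h4 := hlab (face n (Fin.last (n + 1)) t)
      rw [h3] at h4
      exact h4 (face_apply_self n _ _)
    have h3 := ih (fun t => (lab (face n (Fin.last (n + 1)) t)).castPred (h2 t)) (by
      intro t
      have h4 := hlab (face n (Fin.last (n + 1)) t)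
      have h5 : lab (face n (Fin.last (n + 1)) t) =
          (Fin.last (n + 1)).succAbove ((lab (face n (Fin.last (n + 1)) t)).castPred (h2 t)) := by
        rw [Fin.succAbove_last, Fin.castSucc_castPred]
      rw [h5, face_apply_succAbove] at h4
      exact h4)
    refine Eq.trans ?_ h3
    refine cnt_congr fun σ _ => ?_
    rw [← Finite.injective_iff_bijective]
    constructor
    · rintro ⟨h4, _⟩ x y hxy
      apply h4
      simp only at hxy ⊢
      exact Fin.castPred_inj.1 hxy
    · intro h4
      refine ⟨?_, fun j => h2 _⟩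
      intro x y hxy
      apply h4
      simp only at hxy ⊢
      exact Fin.castPred_inj.2 hxy

end Pool.Agent.KP
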