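import Pool.Agent.Lib_helper74.KP.B2

/-!
# Block B3: no nondegenerate critical points of the wrong index
-/

open scoped Topology
open Metric Set

noncomputable section

namespace Pool.Agent.KP

/-! ### Barycentric coordinates in `ℝ^{k+1}` (up to scaling) -/

/-- the linear functionals `x₀, …, x_k, -(x₀+…+x_k)` -/
def ell {k : ℕ} (x : E (k + 1)) : Fin (k + 2) → ℝ :=
  Fin.lastCases (-∑ j, x j) (fun j => x j)

theorem ell_castSucc {k : ℕ} (x : E (k + 1)) (j : Fin (k + 1)) : ell x j.castSucc = x j := by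
  simp [ell]

theorem ell_last {k : ℕ} (x : E (k + 1)) : ell x (Fin.last (k + 1)) = -∑ j, x j := by
  simp [ell]

theorem continuous_ell {k : ℕ} (i : Fin (k + 2)) : Continuous (fun x : E (k + 1) => ell x i) := by
  refine Fin.lastCases ?_ (fun j => ?_) i
  · simp only [ell_last]
    fun_prop
  · simp only [ell_castSucc]
    fun_prop

theorem exists_ell_lt {k : ℕ} (x : E (k + 1)) (hx : x ≠ 0) : ∃ i j, ell x i < ell x j := by
  by_contra hcon
  push Not at hcon
  have hall : ∀ i j, ell x i = ell x j := fun i j => le_antisymm (hcon j i) (hcon i j)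
  have hsum : ∑ i, ell x i = 0 := by
    rw [Fin.sum_univ_castSucc, ell_last]
    simp only [ell_castSucc]
    ring
  have h0 : ∀ i, ell x i = 0 := by
    intro i
    have h1 : ∑ j, ell x j = ∑ _j : Fin (k + 2), ell x i :=
      Finset.sum_congr rfl fun j _ => hall j i
    rw [hsum, Finset.sum_const, Finset.card_univ, Fintype.card_fin, nsmul_eq_mul] at h1
    have h2 : ((k + 2 : ℕ) : ℝ) ≠ 0 := by positivity
    rcases mul_eq_zero.1 h1.symm with h3 | h3
    · exact absurd h3 h2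
    · exact h3
  apply hx
  ext j
  rw [← ell_castSucc, h0]
  simp

/-- an index where a finite family is maximal -/
def argmax {k : ℕ} (v : Fin (k + 2) → ℝ) : Fin (k + 2) :=
  Classical.choose (Finite.exists_max v)

theorem le_argmax {k : ℕ} (v : Fin (k + 2) → ℝ) (i : Fin (k + 2)) : v i ≤ v (argmax v) :=
  Classical.choose_spec (Finite.exists_max v) i

/-- the simplex of barycenter `0` in `ℝ^{k+1}` -/
def x0 {k : ℕ} (t : stdSimplex ℝ (Fin (k + 2))) : E (k + 1) :=
  WithLp.toLp 2 (fun j => (t : Fin (k + 2) → ℝ) j.castSucc - 1 / ((k : ℝ) + 2))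

theorem x0_apply {k : ℕ} (t : stdSimplex ℝ (Fin (k + 2))) (j : Fin (k + 1)) :
    x0 t j = (t : Fin (k + 2) → ℝ) j.castSucc - 1 / ((k : ℝ) + 2) := rfl

theorem ell_x0 {k : ℕ} (s : ℝ) (t : stdSimplex ℝ (Fin (k + 2))) (i : Fin (k + 2)) :
    ell (s • x0 t) i = s * ((t : Fin (k + 2) → ℝ) i - 1 / ((k : ℝ) + 2)) := by
  refine Fin.lastCases ?_ (fun j => ?_) i
  · rw [ell_last]
    have h1 : ∑ j, (t : Fin (k + 2) → ℝ) j = 1 := t.2.2
    rw [Fin.sum_univ_castSucc] at h1
    simp only [PiLp.smul_apply, smul_eq_mul, x0_apply]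
    rw [← Finset.mul_sum, Finset.sum_sub_distrib, Finset.sum_const, Finset.card_univ,
      Fintype.card_fin, nsmul_eq_mul]
    have h2 : ∑ j : Fin (k + 1), (t : Fin (k + 2) → ℝ) j.castSucc =
      1 - (t : Fin (k + 2) → ℝ) (Fin.last (k + 1)) := by linarith
    rw [h2]
    have h3 : ((k : ℝ) + 2) ≠ 0 := by positivity
    push_cast
    field_simp
    ring
  · rw [ell_castSucc]
    simp only [PiLp.smul_apply, smul_eq_mul, x0_apply]

theorem continuous_x0 {k : ℕ} : Continuous (x0 (k := k)) := by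
  unfold x0
  refine (PiLp.continuous_toLp 2 _).comp ?_
  refine continuous_pi fun j => ?_
  exact ((continuous_apply j.castSucc).comp continuous_subtype_val).sub continuous_const

theorem eq_of_x0_eq_zero {k : ℕ} (t : stdSimplex ℝ (Fin (k + 2))) (h : x0 t = 0)
    (i : Fin (k + 2)) : (t : Fin (k + 2) → ℝ) i = 1 / ((k : ℝ) + 2) := by
  have h1 := ell_x0 1 t i
  rw [h, smul_zero, one_mul] at h1
  have h2 : ell (0 : E (k + 1)) i = 0 := by
    refine Fin.lastCases ?_ (fun j => ?_) i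
    · rw [ell_last]; simp
    · rw [ell_castSucc]; simp
  rw [h2] at h1
  linarith

/-! ### The main argument -/

section Main

variable {V : Type*} [NormedAddCommGroup V] [NormedSpace ℝ V] [ProperSpace V]
    {M : Type*} [TopologicalSpace M] [T2Space M]

omit [NormedSpace ℝ V] in
theorem isOpen_image_of_ball (φ : V → M) (R : ℝ)
    (hφ : ContinuousOn φ (closedBall 0 R)) (hinj : InjOn φ (closedBall 0 R))
    (hopen : IsOpen (φ '' ball 0 R)) (V' : Set V) (hV' : IsOpen V') (hsub : V' ⊆ ball 0 R) :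
    IsOpen (φ '' V') := by
  have h1 : φ '' V' = φ '' ball 0 R ∩ (φ '' (closedBall 0 R \ V'))ᶜ := by
    ext q
    constructor
    · rintro ⟨z, hz, rfl⟩
      refine ⟨⟨z, hsub hz, rfl⟩, ?_⟩
      rintro ⟨z', hz', h⟩
      have : z' = z := hinj hz'.1 (ball_subset_closedBall (hsub hz)) h
      rw [this] at hz'
      exact hz'.2 hz
    · rintro ⟨⟨z, hz, rfl⟩, h2⟩
      by_contra h3
      apply h2
      refine ⟨z, ⟨ball_subset_closedBall hz, fun h4 => h3 ⟨z, h4, rfl⟩⟩, rfl⟩
  rw [h1]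
  refine hopen.inter ?_
  rw [isOpen_compl_iff]
  have h2 : IsCompact (closedBall (0 : V) R \ V') := (isCompact_closedBall 0 R).diff hV'
  exact (h2.image_of_continuousOn (hφ.mono Set.sdiff_subset)).isClosed

/-- General form: `h` has at `φ 0` a critical point of index `k + 1` in a weak sense. -/
theorem no_saddle_general (h : M → ℝ) (hc : Continuous h)
    (k : ℕ) (φ : V → M) (R : ℝ) (hR : 0 < R)
    (hφ : ContinuousOn φ (closedBall 0 R)) (hinj : InjOn φ (closedBall 0 R))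
    (hopen : IsOpen (φ '' ball 0 R))
    (π : V →L[ℝ] E (k + 1)) (ψ : E (k + 1) →L[ℝ] V) (hπψ : ∀ x, π (ψ x) = x)
    (hneg : ∀ x, x ≠ 0 → ‖ψ x‖ ≤ R → h (φ (ψ x)) < h (φ 0))
    (hpos : ∀ z, z ≠ 0 → ‖z‖ ≤ R → π z = 0 → h (φ 0) < h (φ z))
    (hI : ∀ (c : ℝ) (n : ℕ), InjIn {q : M | h q ≤ c} n)
    (hv : VanishesIn M k) : False := by
  classical
  have hopenMap := isOpen_image_of_ball φ R hφ hinj hopen
  -- labels
  set inv : M → V := Function.invFunOn φ (closedBall 0 R) with hinvdef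
  have hinv : ∀ z ∈ closedBall (0 : V) R, inv (φ z) = z := fun z hz =>
    hinj.leftInvOn_invFunOn hz
  set lab : M → Fin (k + 2) := fun q => argmax (ell (π (inv q))) with hlabdef
  have hmiss : ∀ z ∈ ball (0 : V) R, π z ≠ 0 → ∃ U : Set M, IsOpen U ∧ φ z ∈ U ∧
      ∃ i, ∀ q ∈ U, lab q ≠ i := by
    intro z hz hπ
    obtain ⟨i, j, hij⟩ := exists_ell_lt (π z) hπ
    refine ⟨φ '' (ball 0 R ∩ {z' | ell (π z') i < ell (π z') j}), ?_, ⟨z, ⟨hz, hij⟩, rfl⟩, i, ?_⟩
    · refine hopenMap _ (isOpen_ball.inter ?_) inter_subset_left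
      exact isOpen_lt ((continuous_ell i).comp π.continuous) ((continuous_ell j).comp π.continuous)
    · rintro _ ⟨z', ⟨hz', hlt⟩, rfl⟩ hlab
      have h1 : lab (φ z') = argmax (ell (π z')) := by
        rw [hlabdef]
        simp only
        rw [hinv z' (ball_subset_closedBall hz')]
      rw [h1] at hlab
      have h2 := le_argmax (ell (π z')) j
      rw [hlab] at h2
      exact absurd hlt (not_lt.2 h2)
  -- the simplex
  obtain ⟨C, hC⟩ := (isCompact_univ : IsCompact (Set.univ : Set (stdSimplex ℝ (Fin (k + 2))))).exists_bound_of_continuousOn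
    (f := fun t => ψ (x0 t)) (ψ.continuous.comp continuous_x0).continuousOn
  set s : ℝ := R / (2 * (|C| + 1)) with hsdef
  have hs : 0 < s := by positivity
  have hsx : ∀ t : stdSimplex ℝ (Fin (k + 2)), ‖ψ (s • x0 t)‖ < R := by
    intro t
    rw [map_smul, norm_smul, Real.norm_eq_abs, abs_of_pos hs]
    have h1 : ‖ψ (x0 t)‖ ≤ |C| + 1 := (hC t (mem_univ _)).trans ((le_abs_self C).trans (by linarith))
    calc s * ‖ψ (x0 t)‖ ≤ s * (|C| + 1) := mul_le_mul_of_nonneg_left h1 hs.le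
      _ = R / 2 := by rw [hsdef]; field_simp
      _ < R := by linarith
  have hsx' : ∀ t : stdSimplex ℝ (Fin (k + 2)), ψ (s • x0 t) ∈ closedBall (0 : V) R := by
    intro t
    rw [mem_closedBall_zero_iff]
    exact (hsx t).le
  set D : C(stdSimplex ℝ (Fin (k + 2)), M) :=
    ⟨fun t => φ (ψ (s • x0 t)), hφ.comp_continuous
      (ψ.continuous.comp (continuous_x0.const_smul s)) hsx'⟩ with hDdef
  have hD : ∀ t, D t = φ (ψ (s • x0 t)) := fun t => rfl
  set c : ℝ := h (φ 0) with hcdef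
  have hDneg : ∀ t, x0 t ≠ 0 → h (D t) < c := by
    intro t ht
    rw [hD]
    exact hneg _ (smul_ne_zero hs.ne' ht) (hsx t).le
  have hDle : ∀ t, h (D t) ≤ c := by
    intro t
    by_cases ht : x0 t = 0
    · rw [hD, ht, smul_zero, map_zero]
    · exact (hDneg t ht).le
  -- the boundary lies lower
  have hface : ∀ (i : Fin (k + 2)) (u : stdSimplex ℝ (Fin (k + 1))), x0 (face k i u) ≠ 0 := by
    intro i u h0
    have h1 := eq_of_x0_eq_zero _ h0 i
    rw [face_apply_self] at h1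
    have : 0 < 1 / ((k : ℝ) + 2) := by positivity
    linarith
  obtain ⟨c', hc'c, hc'⟩ : ∃ c' < c, ∀ (i : Fin (k + 2)) (u : stdSimplex ℝ (Fin (k + 1))),
      h (D (face k i u)) ≤ c' := by
    have h1 : ∀ i : Fin (k + 2), ∃ c' < c, ∀ u : stdSimplex ℝ (Fin (k + 1)),
        h (D (face k i u)) ≤ c' := by
      intro i
      obtain ⟨u₀, _, hu₀⟩ := (isCompact_univ : IsCompact (Set.univ :
        Set (stdSimplex ℝ (Fin (k + 1))))).exists_isMaxOn Set.univ_nonempty
        (f := fun u => h (D (face k i u)))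
        (hc.comp (D.continuous.comp (face k i).continuous)).continuousOn
      exact ⟨h (D (face k i u₀)), hDneg _ (hface i u₀), fun u => hu₀ (mem_univ u)⟩
    choose cc hcc1 hcc2 using h1
    obtain ⟨i₀, hi₀⟩ := Finite.exists_max cc
    exact ⟨cc i₀, hcc1 i₀, fun i u => (hcc2 i u).trans (hi₀ i)⟩
  have hbdD : bd k (Finsupp.single D 1) ∈ chIn {q : M | h q ≤ c'} k := by
    rw [bd_single']
    refine Submodule.sum_mem _ fun i _ => single_mem_chIn _ _ _ ?_
    rintro _ ⟨u, rfl⟩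
    exact hc' i u
  obtain ⟨b, hb, hbb⟩ := hI c' k _ hbdD ⟨_, rfl⟩
  have hDA : Finsupp.single D (1 : ZMod 2) ∈ chIn {q : M | h q ≤ c} (k + 1) := by
    refine single_mem_chIn _ _ _ ?_
    rintro _ ⟨t, rfl⟩
    exact hDle t
  have hbA : b ∈ chIn {q : M | h q ≤ c} (k + 1) := by
    rw [mem_chIn_iff] at hb ⊢
    intro σ hσ q hq
    exact (hb σ hσ hq).trans hc'c.le
  have hcyc : bd k (Finsupp.single D 1 + b) = 0 := by
    rw [map_add, hbb]
    exact ZModModule.add_self _
  obtain ⟨w, hw⟩ := hv _ hcyc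
  obtain ⟨e, he, hee⟩ := hI c (k + 1) _ (Submodule.add_mem _ hDA hbA) ⟨w, hw⟩
  -- the counting functional
  set ρ : ℝ := R / 2 with hρdef
  have hρ : 0 < ρ := by positivity
  have hρR : ρ < R := by rw [hρdef]; linarith
  set O : Set M := φ '' ball 0 ρ ∩ {q | c' < h q} with hOdef
  have hO : IsOpen O := by
    refine IsOpen.inter (hopenMap _ isOpen_ball (ball_subset_ball hρR.le)) ?_
    exact isOpen_lt continuous_const hc
  have h0O : φ 0 ∈ O := ⟨⟨0, mem_ball_self hρ, rfl⟩, hc'c⟩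
  set Full : C(stdSimplex ℝ (Fin (k + 2)), M) → Prop := fun σ =>
    Function.Bijective (fun j => lab (σ (stdSimplex.vertex j))) with hFulldef
  set P : C(stdSimplex ℝ (Fin (k + 2)), M) → Prop := fun σ => Set.range σ ⊆ O ∧ Full σ with hPdef
  have hnotfull : ∀ (U : Set M) (i : Fin (k + 2)), (∀ q ∈ U, lab q ≠ i) →
      ∀ σ : C(stdSimplex ℝ (Fin (k + 2)), M), Set.range σ ⊆ U → ¬ Full σ := by
    intro U i hU σ hσ hF
    obtain ⟨j, hj⟩ := hF.2 i
    exact hU _ (hσ ⟨_, rfl⟩) hj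
  -- (1)
  have hone : ∀ m, cnt (k + 1) P ((sd (k + 1))^[m] b) = 0 := by
    intro m
    refine cnt_eq_zero fun σ hσ hP => ?_
    have h1 := (mem_chIn_iff _ _ _).1 (sd_mem_iter _ _ m b hb) σ hσ
    have h2 : σ (stdSimplex.vertex 0) ∈ O := hP.1 ⟨_, rfl⟩
    have h3 : h (σ (stdSimplex.vertex 0)) ≤ c' := h1 ⟨_, rfl⟩
    exact absurd h2.2 (not_lt.2 h3)
  -- (2)
  obtain ⟨m₁, hm₁⟩ := sd_small (k + 1) (Finsupp.single D (1 : ZMod 2))
    (ι := {U : Set M // IsOpen U ∧ ∀ σ : C(stdSimplex ℝ (Fin (k + 2)), M), Set.range σ ⊆ U →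
      Set.range σ ⊆ Set.range D → Full σ → Set.range σ ⊆ O}) (fun U => U.1)
    (fun U => U.2.1) (by
      intro q
      by_cases hq : q ∈ Set.range D
      · obtain ⟨t, rfl⟩ := hq
        by_cases ht : x0 t = 0
        · refine ⟨⟨O, hO, fun σ h1 _ _ => h1⟩, ?_⟩
          show D t ∈ O
          rw [hD, ht, smul_zero, map_zero]
          exact h0O
        · obtain ⟨U, hU, hU1, i, hi⟩ := hmiss (ψ (s • x0 t)) (mem_ball_zero_iff.2 (hsx t)) (by
            rw [hπψ]
            exact smul_ne_zero hs.ne' ht)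
          exact ⟨⟨U, hU, fun σ h1 _ h3 => absurd h3 (hnotfull U i hi σ h1)⟩, hU1⟩
      · refine ⟨⟨(Set.range D)ᶜ, ?_, ?_⟩, hq⟩
        · rw [isOpen_compl_iff]
          exact (isCompact_range D.continuous).isClosed
        · intro σ h1 h2 _
          exact absurd (h2 ⟨stdSimplex.vertex 0, rfl⟩) (h1 ⟨stdSimplex.vertex 0, rfl⟩))
  have htwo : ∀ m ≥ m₁, cnt (k + 1) P ((sd (k + 1))^[m] (Finsupp.single D 1)) = 1 := by
    intro m hm
    have h1 : cnt (k + 1) P ((sd (k + 1))^[m] (Finsupp.single D 1)) =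
        cnt (k + 1) Full ((sd (k + 1))^[m] (Finsupp.single D 1)) := by
      refine cnt_congr fun σ hσ => ⟨fun h2 => h2.2, fun h2 => ⟨?_, h2⟩⟩
      obtain ⟨U, hU⟩ := (Finsupp.mem_supported _ _).1 (hm₁ m hm)
        (Finset.mem_coe.2 (Finsupp.mem_support_iff.2 hσ))
      refine U.2.2 σ hU ?_ h2
      exact (mem_chIn_iff _ _ _).1 (sd_mem_iter (Set.range D) _ m _
        (single_mem_chIn _ _ _ subset_rfl)) σ hσ
    have h2 : Finsupp.single D (1 : ZMod 2) =
        push D (k + 1) (Finsupp.single (ContinuousMap.id _) 1) := by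
      rw [push_single]; rfl
    rw [h1, h2, sd_push_iter, cnt_push]
    refine sperner (k + 1) m (fun t => lab (D t)) ?_
    intro t ht
    have h3 : lab (D t) = argmax (ell (s • x0 t)) := by
      rw [hlabdef]
      simp only
      rw [hD, hinv _ (hsx' t), hπψ]
    rw [h3] at ht
    have h4 : ∀ j, (t : Fin (k + 2) → ℝ) j ≤ 0 := by
      intro j
      have h5 := le_argmax (ell (s • x0 t)) j
      rw [ell_x0, ell_x0, ht] at h5
      have h6 := le_of_mul_le_mul_left h5 hs
      linarith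
    have h7 : ∑ j, (t : Fin (k + 2) → ℝ) j = 1 := t.2.2
    have h8 : ∑ j, (t : Fin (k + 2) → ℝ) j ≤ 0 := Finset.sum_nonpos fun j _ => h4 j
    linarith
  -- (3)
  obtain ⟨m₂, hm₂⟩ := sd_small (k + 2) e
    (ι := {U : Set M // IsOpen U ∧ ∀ τ : C(stdSimplex ℝ (Fin (k + 3)), M), Set.range τ ⊆ U →
      Set.range τ ⊆ {q : M | h q ≤ c} →
        cnt (k + 1) P (bd (k + 1) (Finsupp.single τ 1)) = 0}) (fun U => U.1)
    (fun U => U.2.1) (by
      have hno : ∀ (U : Set M), (∀ σ : C(stdSimplex ℝ (Fin (k + 2)), M), Set.range σ ⊆ U →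
          ¬ P σ) → ∀ τ : C(stdSimplex ℝ (Fin (k + 3)), M), Set.range τ ⊆ U →
          cnt (k + 1) P (bd (k + 1) (Finsupp.single τ 1)) = 0 := by
        intro U hU τ hτ
        rw [cnt_bd_single]
        refine Finset.sum_eq_zero fun i _ => if_neg (hU _ ((range_comp_subset _ _).trans hτ))
      intro q
      by_cases hq : q ∈ φ '' closedBall 0 ρ
      · obtain ⟨z, hz, rfl⟩ := hq
        have hzR : ‖z‖ < R := (mem_closedBall_zero_iff.1 hz).trans_lt hρR
        by_cases hz0 : z = 0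
        · subst hz0
          refine ⟨⟨O, hO, fun τ h1 _ => ?_⟩, h0O⟩
          rw [← even_full_faces (k + 1) lab τ]
          rw [cnt_bd_single, cnt_bd_single]
          refine Finset.sum_congr rfl fun i _ => ?_
          have h2 : P (τ.comp (face (k + 1) i)) ↔ Full (τ.comp (face (k + 1) i)) :=
            ⟨fun h => h.2, fun h => ⟨(range_comp_subset _ _).trans h1, h⟩⟩
          by_cases h3 : Full (τ.comp (face (k + 1) i))
          · rw [if_pos (h2.2 h3), if_pos h3]
          · rw [if_neg (fun h4 => h3 (h2.1 h4)), if_neg h3]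
        · by_cases hπz : π z = 0
          · refine ⟨⟨{q | c < h q}, isOpen_lt continuous_const hc, fun τ h1 h2 => ?_⟩,
              hpos z hz0 hzR.le hπz⟩
            have h3 : c < h (τ (stdSimplex.vertex 0)) := h1 ⟨_, rfl⟩
            have h4 : h (τ (stdSimplex.vertex 0)) ≤ c := h2 ⟨_, rfl⟩
            exact absurd h3 (not_lt.2 h4)
          · obtain ⟨U, hU, hU1, i, hi⟩ := hmiss z (mem_ball_zero_iff.2 hzR) hπz
            exact ⟨⟨U, hU, fun τ h1 _ => hno U (fun σ hσ hP => hnotfull U i hi σ hσ hP.2) τ h1⟩,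
              hU1⟩
      · refine ⟨⟨(φ '' closedBall 0 ρ)ᶜ, ?_, fun τ h1 _ => hno _ ?_ τ h1⟩, hq⟩
        · rw [isOpen_compl_iff]
          exact ((isCompact_closedBall 0 ρ).image_of_continuousOn
            (hφ.mono (closedBall_subset_closedBall hρR.le))).isClosed
        · intro σ hσ hP
          have h2 : σ (stdSimplex.vertex 0) ∈ O := hP.1 ⟨_, rfl⟩
          obtain ⟨z, hz, hz'⟩ := h2.1
          exact hσ ⟨stdSimplex.vertex 0, rfl⟩ ⟨z, ball_subset_closedBall hz, hz'⟩)
  have hthree : ∀ m ≥ m₂, cnt (k + 1) P (bd (k + 1) ((sd (k + 2))^[m] e)) = 0 := by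
    intro m hm
    refine cnt_bd_eq_zero fun τ hτ => ?_
    obtain ⟨U, hU⟩ := (Finsupp.mem_supported _ _).1 (hm₂ m hm)
      (Finset.mem_coe.2 (Finsupp.mem_support_iff.2 hτ))
    exact U.2.2 τ hU ((mem_chIn_iff _ _ _).1 (sd_mem_iter _ _ m e he) τ hτ)
  -- conclusion
  have hfin : cnt (k + 1) P ((sd (k + 1))^[max m₁ m₂] (bd (k + 1) e)) = 1 := by
    rw [hee, iter_eq_pow, map_add, map_add, ← iter_eq_pow, ← iter_eq_pow,
      htwo _ (le_max_left _ _), hone, add_zero]
  rw [← bd_sd_iter, hthree _ (le_max_right _ _)] at hfin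
  exact zero_ne_one hfin

end Main

end Pool.Agent.KP
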