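import Pool.Agent.Lib_helper74.KP.B3
import Pool.Agent.Lib_helper39.TP.Stmt

/-!
# Block B3, forms used elsewhere
-/

open scoped Topology
open Metric Set

noncomputable section

namespace Pool.Agent.KP

theorem no_saddle {M : Type} [TopologicalSpace M] [T2Space M] (h : M → ℝ) (hc : Continuous h)
    (k l : ℕ) (ι : OpenPartialHomeomorph (E (k + 1) × E l) M)
    (h0 : (0 : E (k + 1) × E l) ∈ ι.source)
    (a b : ℝ) (ha : 0 < a) (_hb : 0 < b)
    (hlow : ∀ z ∈ ι.source, a * ‖z.2‖ ^ 2 - b * ‖z.1‖ ^ 2 ≤ h (ι z) - h (ι 0))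
    (hupp : ∀ z ∈ ι.source, h (ι z) - h (ι 0) ≤ b * ‖z.2‖ ^ 2 - a * ‖z.1‖ ^ 2)
    (hinj : ∀ (c : ℝ) (n : ℕ), InjIn {q : M | h q ≤ c} n)
    (hv : VanishesIn M k) : False := by
  obtain ⟨R, hR, hsub⟩ := Metric.nhds_basis_closedBall.mem_iff.1 (ι.open_source.mem_nhds h0)
  refine no_saddle_general (V := E (k + 1) × E l) h hc k ι R hR (ι.continuousOn.mono hsub)
    (ι.injOn.mono hsub) ?_ (ContinuousLinearMap.fst ℝ _ _) (ContinuousLinearMap.inl ℝ _ _)
    (fun x => rfl) ?_ ?_ hinj hv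
  · exact ι.isOpen_image_of_subset_source isOpen_ball (ball_subset_closedBall.trans hsub)
  · intro x hx hxR
    have h1 := hupp (x, 0) (hsub (by
      rw [mem_closedBall_zero_iff]
      exact hxR))
    simp only [norm_zero] at h1
    have h2 : 0 < ‖x‖ ^ 2 := by positivity
    have h3 : (ContinuousLinearMap.inl ℝ (E (k + 1)) (E l)) x = (x, 0) := rfl
    rw [h3]
    nlinarith [mul_pos ha h2]
  · intro z hz hzR hπ
    have h1 := hlow z (hsub (mem_closedBall_zero_iff.2 hzR))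
    have h3 : z.1 = 0 := hπ
    have h4 : z.2 ≠ 0 := fun h5 => hz (Prod.ext h3 h5)
    rw [h3, norm_zero] at h1
    have h2 : 0 < ‖z.2‖ ^ 2 := by positivity
    nlinarith [mul_pos ha h2]

end Pool.Agent.KP

namespace Pool.Agent.TP

open Pool.Agent.KP

/-- (G4), from the two statements comparing Mathlib's homology with chains. -/
theorem tight_T1_of
    (hA : ∀ {X : Type} [TopologicalSpace X] (A : Set X) (n : ℕ),
      Function.Injective (KP.H2incl A n) → KP.InjIn A n)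
    (hV : ∀ {X : Type} [TopologicalSpace X] (k : ℕ),
      Subsingleton ((KP.H2 (k + 1)).obj (TopCat.of X)) → KP.VanishesIn X k)
    {n k : ℕ} (hk : 1 ≤ k) {M E : Type} [TopologicalSpace M]
    [T2Space M] [NormedAddCommGroup E] [NormedSpace ℝ E]
    (f : M → E) (hc : Continuous f) (ht : IsTight f)
    (ξ : E →L[ℝ] ℝ) (φ : EuclideanSpace ℝ (Fin n) → M) (R : ℝ) (hR : 0 < R)
    (hφ : ContinuousOn φ (closedBall 0 R)) (hinj : InjOn φ (closedBall 0 R))
    (hopen : ∀ r, 0 < r → r ≤ R → IsOpen (φ '' ball 0 r))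
    (π : EuclideanSpace ℝ (Fin n) →L[ℝ] EuclideanSpace ℝ (Fin k))
    (ψ : EuclideanSpace ℝ (Fin k) →L[ℝ] EuclideanSpace ℝ (Fin n)) (hπψ : ∀ x, π (ψ x) = x)
    (hneg : ∀ x, x ≠ 0 → ‖ψ x‖ ≤ R → ξ (f (φ (ψ x))) < ξ (f (φ 0)))
    (hpos : ∀ z, z ≠ 0 → ‖z‖ ≤ R → π z = 0 → ξ (f (φ 0)) < ξ (f (φ z))) :
    ¬ Subsingleton ((HZ2 k).obj (TopCat.of M)) := by
  intro hsing
  obtain ⟨k, rfl⟩ : ∃ k', k = k' + 1 := ⟨k - 1, by omega⟩
  have hξ : ξ ≠ 0 := by
    rintro rfl
    -- pick a small nonzero vector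
    set e : EuclideanSpace ℝ (Fin (k + 1)) := EuclideanSpace.single 0 1 with he
    have he0 : e ≠ 0 := by
      intro h
      have := congrArg (fun v : EuclideanSpace ℝ (Fin (k + 1)) => v 0) h
      simp [he] at this
    set s : ℝ := R / (‖ψ e‖ + 1) with hs
    have hspos : 0 < s := by positivity
    have h1 := hneg (s • e) (smul_ne_zero hspos.ne' he0) (by
      rw [map_smul, norm_smul, Real.norm_eq_abs, abs_of_pos hspos, hs, div_mul_eq_mul_div,
        div_le_iff₀ (by positivity)]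
      have : 0 ≤ ‖ψ e‖ := norm_nonneg _
      nlinarith)
    simp at h1
  refine no_saddle_general (V := EuclideanSpace ℝ (Fin n)) (fun q => ξ (f q))
    (ξ.continuous.comp hc) k φ R hR hφ hinj (hopen R hR le_rfl) π ψ hπψ hneg hpos ?_ (hV k hsing)
  intro c m
  exact hA _ _ (ht ξ c hξ m)

end Pool.Agent.TP
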